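import Mathlib
import Pool.Agent.Helper927.R5Main

set_option autoImplicit false
set_option maxHeartbeats 4000000

namespace Pool.Agent.Results.MP_98a5df_co.FiveRegular

/-- The row of the rigidity matrix that belongs to the unordered pair `uv`, as a vector indexed by
the `3n` columns `(w, i)`: it is `p u - p v` in the three columns of `u`, `p v - p u` in the three
columns of `v`, and zero elsewhere. -/
def rigidityRow {V : Type} [DecidableEq V] (p : V → Fin 3 → ℝ) : Sym2 V → (V × Fin 3 → ℝ) :=
  Sym2.lift ⟨fun u v => fun w =>
    (if w.1 = u then p u w.2 - p v w.2 else 0) + (if w.1 = v then p v w.2 - p u w.2 else 0),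
    fun u v => by funext w; exact add_comm _ _⟩

/-- The rigidity matrix `R(G,p)`: one row for each edge, three columns for each vertex. -/
def rigidityMatrix {V : Type} [DecidableEq V] (G : SimpleGraph V) (p : V → Fin 3 → ℝ) :
    Matrix G.edgeSet (V × Fin 3) ℝ := fun e w => rigidityRow p e.1 w

/-- The rows of `R(G,p)` are linearly independent. -/
def RowsIndependent {V : Type} [DecidableEq V] (G : SimpleGraph V) (p : V → Fin 3 → ℝ) : Prop :=
  LinearIndependent ℝ (fun e : G.edgeSet => rigidityMatrix G p e)

/-- The map `p` is generic: its `3n` coordinates are algebraically independent over `ℚ`. -/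
def IsGeneric {V : Type} (p : V → Fin 3 → ℝ) : Prop :=
  AlgebraicIndependent ℚ (fun w : V × Fin 3 => p w.1 w.2)

/-- `G` is independent in the generic 3-dimensional rigidity matroid: the rows of `R(G,p)` are
linearly independent for every generic `p`. -/
def Independent3 {V : Type} [DecidableEq V] (G : SimpleGraph V) : Prop :=
  ∀ p : V → Fin 3 → ℝ, IsGeneric p → RowsIndependent G p

/-- `G` is `(3,6)`-sparse: every subgraph `H` of `G` with at least three vertices has at most
`3 |V(H)| - 6` edges. -/
def IsSparse36 {V : Type} (G : SimpleGraph V) : Prop :=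
  ∀ H : G.Subgraph, 3 ≤ H.verts.ncard → H.edgeSet.ncard ≤ 3 * H.verts.ncard - 6

/-- A finite 5-regular graph is independent in the generic 3-dimensional rigidity matroid (for
generic `p`, equivalently for some `p`) if and only if it is `(3,6)`-sparse. -/
theorem result : ∀ (V : Type) [Fintype V] [DecidableEq V] (G : SimpleGraph V) [DecidableRel G.Adj],
    G.IsRegularOfDegree 5 →
      ((Independent3 G ↔ IsSparse36 G) ∧
        ((∃ p : V → Fin 3 → ℝ, RowsIndependent G p) ↔ IsSparse36 G)) := by
  intro V _ _ G _ hreg
  have h := Pool.Agent.Reg5.final_all G (fun v => le_of_eq (hreg v))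
  exact ⟨h.1, h.2.2⟩

end Pool.Agent.Results.MP_98a5df_co.FiveRegular
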